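import Pool.Agent.T6.H82.MA.Fin

/-!
# The intersection lattice determines the magnitude homology of a real arrangement

Arrangements (possibly in different ambient dimensions) with isomorphic intersection lattices have
isomorphic magnitude homology groups `MH_{k,ℓ}` (of their tope graphs), for all `k, ℓ`.
-/

set_option autoImplicit false

namespace Pool.Agent.Results.MP_1c795d_co.LatticeDetermines

open Pool.Agent.T6.H82.MA

/-- If the intersection lattices of two real hyperplane arrangements are isomorphic then so are
all the magnitude homology groups of their tope graphs. -/
theorem result {d d' : ℕ} (A : Arrangement d) (A' : Arrangement d')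
    (e : A.IntersectionLattice ≃o A'.IntersectionLattice) (k ℓ : ℕ) :
    Nonempty (MH A.topeGraph k ℓ ≃+ MH A'.topeGraph k ℓ) :=
  Arrangement.main A A' e k ℓ

end Pool.Agent.Results.MP_1c795d_co.LatticeDetermines
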